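import Pool.Agent.P.MP_b8847a_al.Main

namespace Pool.Agent.Results.MP_b8847a_al.NotSpechtian

open Pool.Agent.P.MP_b8847a_al

universe u

/-- Over every field of characteristic zero there is a finitely based variety of noncommutative
Jordan algebras which is admissible (hence locally admissible), nonmatrix and closed under
adjoining an identity element, but is not Spechtian. -/
theorem result (F : Type u) [Field F] [CharZero F] :
    ∃ V : Set (Alg F), IsVariety V ∧ FinitelyBased V ∧ (∀ A ∈ V, IsNCJordan A) ∧
      Admissible V ∧ LocallyAdmissible V ∧ Nonmatrix V ∧ (∀ A ∈ V, A.adjoinOne ∈ V) ∧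
      ¬ Spechtian V :=
  ⟨Var (S0 F), ⟨_, rfl⟩, ⟨_, S0_finite, rfl⟩, fun _ h => V0_ncJordan h, V0_admissible,
    locAdm_of_adm V0_admissible, V0_nonmatrix, fun _ h => V0_adjoinOne h, V0_not_spechtian⟩

end Pool.Agent.Results.MP_b8847a_al.NotSpechtian
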